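import Pool.Agent.P.MP_5c499f_an.TBc
import Pool.Agent.P.MP_5c499f_an.TCal
import Pool.Agent.P.MP_5c499f_an.TCov
import Pool.Agent.P.MP_5c499f_an.TDc

set_option autoImplicit false

namespace Pool.Agent.Results.MP_5c499f_an.CupDynamic

open Bundle Pool.Agent.P.MP_5c499f_an
open scoped Manifold ContDiff

theorem result {E : Type*} [NormedAddCommGroup E] [NormedSpace ℝ E] [FiniteDimensional ℝ E]
    {M : Type*} [TopologicalSpace M] [T2Space M] [CompactSpace M] [ConnectedSpace M]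
    [ChartedSpace E M] [IsManifold 𝓘(ℝ, E) ∞ M]
    [RiemannianBundle fun x : M => TangentSpace 𝓘(ℝ, E) x]
    [IsContinuousRiemannianBundle E fun x : M => TangentSpace 𝓘(ℝ, E) x]
    (f : Diffeomorph 𝓘(ℝ, E) 𝓘(ℝ, E) M M 1) (hf : IsAnosov E f)
    (nw : ∀ U : Set M, IsOpen U → U.Nonempty → ∃ n, 0 < n ∧ (f^[n] '' U ∩ U).Nonempty)
    {k : ℕ} (ho : Oriented E f.symm k) {Z : Type*} [TopologicalSpace Z] (q : Z → M)
    (hq : IsCoveringMap q) (sq : Function.Surjective q) (hc : CupDyn E f q k) :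
    ∃ (m : ℕ) (A : Matrix (Fin m) (Fin m) ℤ) (h : M ≃ₜ (Fin m → UnitAddCircle)), IsUnit A.det ∧
      (∀ z : ℂ, ‖z‖ = 1 → Polynomial.aeval z A.charpoly ≠ 0) ∧
      ∀ x i, h (f x) i = ∑ j, A i j • h x j :=
  TTor.dyn_torus f hf nw ho hq sq hc

section

variable {E : Type*} [NormedAddCommGroup E] [NormedSpace ℝ E] [FiniteDimensional ℝ E]
  {M : Type*} [TopologicalSpace M] [T2Space M] [CompactSpace M] [ConnectedSpace M]
  [ChartedSpace E M] [IsManifold 𝓘(ℝ, E) ∞ M]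
  [RiemannianBundle fun x : M => TangentSpace 𝓘(ℝ, E) x]
  [IsContinuousRiemannianBundle E fun x : M => TangentSpace 𝓘(ℝ, E) x]
  (f : Diffeomorph 𝓘(ℝ, E) 𝓘(ℝ, E) M M 1) (hf : IsAnosov E f)
  (nw : ∀ U : Set M, IsOpen U → U.Nonempty → ∃ n, 0 < n ∧ (f^[n] '' U ∩ U).Nonempty)

include hf nw

/-- The case of the constant polynomial: every closed form itself has the shape. -/
theorem bounded_primitives {k : ℕ} (ho : Oriented E f.symm k) {Z : Type*} [TopologicalSpace Z]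
    (q : Z → M) (hq : IsCoveringMap q) (sq : Function.Surjective q)
    (hc : ∀ α : Form M k, α.Smooth E → (∀ x v, α.d.ev E x v = 0) →
      ∃ (m : ℕ) (c : Fin m → ℝ) (θ : Fin m → Fin k → M → ℂ) (b : Fin m → Fin k → Z → ℝ) (K : ℝ),
        (∀ t i, ContMDiff 𝓘(ℝ, E) 𝓘(ℝ, ℂ) ∞ (θ t i) ∧ ∀ x, θ t i x ≠ 0) ∧
        (∀ t i z, |b t i z| ≤ K) ∧
        ∀ (x : M) (s : M → Z), ContinuousAt s x → (∀ᶠ y in nhds x, q (s y) = y) →
          (∀ t i, ContMDiffAt 𝓘(ℝ, E) 𝓘(ℝ, ℝ) 1 (b t i ∘ s) x ∧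
            ∀ v, |mvfderiv 𝓘(ℝ, E) (b t i ∘ s) x v| ≤ K * ‖v‖) ∧
          ∀ v, α.ev E x v = ∑ t, c t * (Matrix.of fun i j =>
            ang E (θ t i) x (v j) + mvfderiv 𝓘(ℝ, E) (b t i ∘ s) x (v j)).det) :
    ∃ (m : ℕ) (A : Matrix (Fin m) (Fin m) ℤ) (h : M ≃ₜ (Fin m → UnitAddCircle)), IsUnit A.det ∧
      (∀ z : ℂ, ‖z‖ = 1 → Polynomial.aeval z A.charpoly ≠ 0) ∧
      ∀ x i, h (f x) i = ∑ j, A i j • h x j :=
  result f hf nw ho q hq sq (TTor.dyn_of_bdd hc f)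

/-- The case without a covering space: cup products of angle forms generate. -/
theorem cup_products {k : ℕ} (ho : Oriented E f.symm k) (hc : CupGen E M k) :
    ∃ (m : ℕ) (A : Matrix (Fin m) (Fin m) ℤ) (h : M ≃ₜ (Fin m → UnitAddCircle)), IsUnit A.det ∧
      (∀ z : ℂ, ‖z‖ = 1 → Polynomial.aeval z A.charpoly ≠ 0) ∧
      ∀ x i, h (f x) i = ∑ j, A i j • h x j :=
  result f hf nw ho id (TTor.cov_id M) Function.surjective_id (TTor.dyn_of_bdd (TTor.bdd_of_gen hc id) f)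

/-- The same hypotheses, with the conclusion in the words of the question (infranilmanifolds). -/
theorem infranil {k : ℕ} (ho : Oriented E f.symm k) {Z : Type*} [TopologicalSpace Z] (q : Z → M)
    (hq : IsCoveringMap q) (sq : Function.Surjective q) (hc : CupDyn E f q k) : InfranilConj f :=
  TTor.dyn_infranil f hf nw ho hq sq hc

/-- The same conclusion when one combination of products of `k` angle forms is nonzero at each point
on `k` vectors spanning the unstable space. -/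
theorem one_form_suffices {k n : ℕ} (c : Fin n → ℝ) (θ : Fin n → Fin k → M → ℂ)
    (hθ : ∀ t i, ContMDiff 𝓘(ℝ, E) 𝓘(ℝ, ℂ) 1 (θ t i) ∧ ∀ x, θ t i x ≠ 0)
    (hu : ∀ x, ∃ v : Fin k → TangentSpace 𝓘(ℝ, E) x,
      ∑ t, c t * (Matrix.of fun i j => ang E (θ t i) x (v j)).det ≠ 0 ∧
      ∀ w, Decays E f.symm x w ↔ w ∈ Submodule.span ℝ (Set.range v)) :
    ∃ (m : ℕ) (A : Matrix (Fin m) (Fin m) ℤ) (h : M ≃ₜ (Fin m → UnitAddCircle)), IsUnit A.det ∧
      (∀ z : ℂ, ‖z‖ = 1 → Polynomial.aeval z A.charpoly ≠ 0) ∧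
      ∀ x i, h (f x) i = ∑ j, A i j • h x j :=
  TTor.cal_torus f hf nw c θ hθ hu

end

/-- The hypotheses hold together for the map `(x, y) ↦ (x + y, x)` of the two-torus, covered by
the plane. -/
theorem hypotheses_hold : ∃ (M : Type) (_ : TopologicalSpace M) (_ : T2Space M)
    (_ : CompactSpace M) (_ : ConnectedSpace M) (_ : ChartedSpace ℂ M)
    (_ : IsManifold 𝓘(ℝ, ℂ) ∞ M) (_ : RiemannianBundle fun x : M => TangentSpace 𝓘(ℝ, ℂ) x)
    (_ : IsContinuousRiemannianBundle ℂ fun x : M => TangentSpace 𝓘(ℝ, ℂ) x)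
    (f : Diffeomorph 𝓘(ℝ, ℂ) 𝓘(ℝ, ℂ) M M 1), IsAnosov ℂ f ∧
      (∀ U : Set M, IsOpen U → U.Nonempty → ∃ n, 0 < n ∧ (f^[n] '' U ∩ U).Nonempty) ∧
      Oriented ℂ f.symm 1 ∧ ∃ q : ℂ → M, IsCoveringMap q ∧ Function.Surjective q ∧
        CupDyn ℂ f q 1 :=
  ⟨TCat.T, _, inferInstance, inferInstance, inferInstance, TCat.chT, TCat.mfT, TCat.rbT, TCat.crT,
    TCat.catD, TCat.anosov_cat, TCat.nw_cat, TCat.oriented_cat, TCat.p,
    TCat.p_cov.isCoveringMap, TCat.p_surj, @TTor.dyn_of_bdd _ _ _ _ _ TCat.chT TCat.rbT _ _ _ _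
      (@TTor.bdd_of_gen _ _ _ _ _ TCat.chT TCat.rbT _ TCat.cup_T _ _ _) _⟩

/-- The conclusion fails for the identity of every space with two points. -/
theorem conclusion_fails_for_identity {M : Type*} [TopologicalSpace M] {x y : M} (hxy : x ≠ y) :
    ¬ ∃ (m : ℕ) (A : Matrix (Fin m) (Fin m) ℤ) (h : M ≃ₜ (Fin m → UnitAddCircle)),
      IsUnit A.det ∧ (∀ z : ℂ, ‖z‖ = 1 → Polynomial.aeval z A.charpoly ≠ 0) ∧
      ∀ x i, h x i = ∑ j, A i j • h x j :=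
  fun ⟨_, A, h, _, h1, h2⟩ => TTor.not_id hxy A h h1 h2

section

variable {E : Type*} [NormedAddCommGroup E] [NormedSpace ℝ E] {M : Type*} [TopologicalSpace M]
  [ChartedSpace E M]

/-- Exact forms are closed. -/
theorem exact_is_closed {k : ℕ} (β : Form M k) : ∀ x v, β.d.d.ev E x v = 0 :=
  TEx.exact_closed β

/-- Exact forms always have the shape asked for in `CupGen`, which therefore constrains only the
classes of closed forms modulo exact forms. -/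
theorem exact_is_generated {k : ℕ} (β : Form M k) (hβ : β.Smooth E) :
    ∃ (m : ℕ) (c : Fin m → ℝ) (θ : Fin m → Fin (k + 1) → M → ℂ),
      (∀ t i, ContMDiff 𝓘(ℝ, E) 𝓘(ℝ, ℂ) ∞ (θ t i) ∧ ∀ x, θ t i x ≠ 0) ∧
      ∀ x v, β.d.ev E x v = ∑ t, c t * (Matrix.of fun i j => ang E (θ t i) x (v j)).det :=
  TEx.exact_gen β hβ

variable [RiemannianBundle fun x : M => TangentSpace 𝓘(ℝ, E) x]

/-- The hypothesis of generation by angle forms alone is the case `b = 0`, `P = 1`, for every `f`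
and `q`. -/
theorem cup_products_have_the_shape {k : ℕ} (hc : CupGen E M k) (f : M → M) {Z : Type*}
    [TopologicalSpace Z] (q : Z → M) : CupDyn E f q k :=
  TTor.dyn_of_bdd (TTor.bdd_of_gen hc q) f

/-- The polynomial is used: the hypothesis holds on every manifold for every periodic map. -/
theorem periodic_maps_have_the_shape {f : M → M} {N : ℕ} (hN : 0 < N) (hf : f^[N] = id)
    {Z : Type*} [TopologicalSpace Z] (q : Z → M) (k : ℕ) : CupDyn E f q k :=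
  TTor.dyn_of_periodic hN hf q k

/-- Dictionary: it suffices that every closed form is a combination of products of angle forms plus
a form whose pull-back is `d (∑ b · da₁ ∧ … ∧ da_k)` with smooth `a` on `M` and bounded `b` on `Z`
with bounded differential. -/
theorem bounded_primitives_have_the_shape (f : M → M) {Z : Type*} [TopologicalSpace Z]
    (q : Z → M) {k : ℕ}
    (h : ∀ α : Form M (k + 1), α.Smooth E → (∀ x v, α.d.ev E x v = 0) →
      ∃ (m : ℕ) (c : Fin m → ℝ) (θ : Fin m → Fin (k + 1) → M → ℂ) (n : ℕ) (b : Fin n → Z → ℝ)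
        (a : Fin n → Fin k → M → ℝ) (K : ℝ),
        (∀ t i, ContMDiff 𝓘(ℝ, E) 𝓘(ℝ, ℂ) ∞ (θ t i) ∧ ∀ x, θ t i x ≠ 0) ∧
        (∀ t i, ContMDiff 𝓘(ℝ, E) 𝓘(ℝ, ℝ) ∞ (a t i)) ∧ (∀ t z, |b t z| ≤ K) ∧
        ∀ (x : M) (s : M → Z), ContinuousAt s x → (∀ᶠ y in nhds x, q (s y) = y) →
          (∀ t, ContMDiffAt 𝓘(ℝ, E) 𝓘(ℝ, ℝ) 1 (b t ∘ s) x ∧
            ∀ v, |mvfderiv 𝓘(ℝ, E) (b t ∘ s) x v| ≤ K * ‖v‖) ∧
          ∀ v, α.ev E x v = ∑ t, c t * (Matrix.of fun i j => ang E (θ t i) x (v j)).det +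
            (⟨n, fun t => b t ∘ s, a⟩ : Form M k).d.ev E x v) :
    CupDyn E f q (k + 1) :=
  TTor.dyn_of_bdd (TEx.bdd_of_primitive q h) f

/-- For the data in `IsAnosov`, the vectors that decay under the inverse are those of the unstable
bundle. -/
theorem decays_iff_unstable (f : Diffeomorph 𝓘(ℝ, E) 𝓘(ℝ, E) M M 1)
    (P : ∀ x : M, TangentSpace 𝓘(ℝ, E) x →L[ℝ] TangentSpace 𝓘(ℝ, E) x) (C lam : ℝ)
    (h0 : 0 < lam) (h1 : lam < 1) (p1 : ∀ x v, P x (P x v) = P x v)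
    (p2 : ∀ x v, mfderiv 𝓘(ℝ, E) 𝓘(ℝ, E) f x (P x v) = P (f x) (mfderiv 𝓘(ℝ, E) 𝓘(ℝ, E) f x v))
    (p3 : ∀ (x : M) (n : ℕ) (v : TangentSpace 𝓘(ℝ, E) x),
      (P x v = 0 → ‖mfderiv 𝓘(ℝ, E) 𝓘(ℝ, E) f^[n] x v‖ ≤ C * lam ^ n * ‖v‖) ∧
      (P x v = v → ‖v‖ ≤ C * lam ^ n * ‖mfderiv 𝓘(ℝ, E) 𝓘(ℝ, E) f^[n] x v‖))
    (x : M) (w : TangentSpace 𝓘(ℝ, E) x) : Decays E f.symm x w ↔ P x w = w :=
  TEx.decays_unstable f h0 h1 p1 p2 p3 x w

/-- The identity is Anosov only in dimension zero. -/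
theorem identity_not_anosov [IsManifold 𝓘(ℝ, E) ∞ M] (h : IsAnosov E fun z : M => z) (x : M)
    (v : TangentSpace 𝓘(ℝ, E) x) : v = 0 :=
  TEx.anosov_id h x v

end

end Pool.Agent.Results.MP_5c499f_an.CupDynamic
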