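import Pool.Agent.P.MP_5c499f_an.ZMain
import Pool.Agent.P.MP_5c499f_an.TCov
import Pool.Agent.P.MP_5c499f_an.TNot

set_option autoImplicit false

namespace Pool.Agent.Results.MP_5c499f_an.ExpDivergence

open Bundle Filter Pool.Agent.P.MP_5c499f_an
open scoped Manifold ContDiff

theorem result {E : Type*} [NormedAddCommGroup E] [NormedSpace ℝ E] [FiniteDimensional ℝ E]
    {M : Type*} [TopologicalSpace M] [T2Space M] [CompactSpace M]
    [ChartedSpace E M] [IsManifold 𝓘(ℝ, E) ∞ M]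
    [RiemannianBundle fun x : M => TangentSpace 𝓘(ℝ, E) x]
    [IsContinuousRiemannianBundle E fun x : M => TangentSpace 𝓘(ℝ, E) x]
    (f : Diffeomorph 𝓘(ℝ, E) 𝓘(ℝ, E) M M 1) (hf : IsAnosov E f)
    {Y Γ : Type*} [MetricSpace Y] [ConnectedSpace Y] [Group Γ] [MulAction Γ Y]
    [IsIsometricSMul Γ Y] (p : Y → M) (hp : IsQuotientCoveringMap p Γ)
    (F : Y ≃ₜ Y) (hF : ∀ y, p (F y) = f (p y))
    (ex : ∀ x y, ∃ w, Asym F w x ∧ Asym F.symm w y)
    (ed : ∀ x y, x ≠ y → Asym F.symm x y →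
      ∃ θ : ℝ, 1 < θ ∧ ∃ᶠ n : ℕ in atTop, θ ^ n ≤ dist (F^[n] x) (F^[n] y)) : InfranilConj f :=
  gps_exp f hf hp F hF ex ed

/-- The hypotheses hold together for the map `(x, y) ↦ (x + y, x)` of the two-torus, covered by the
plane. -/
theorem hypotheses_hold : ∃ (M : Type) (_ : TopologicalSpace M) (_ : T2Space M)
    (_ : CompactSpace M) (_ : ChartedSpace ℂ M) (_ : IsManifold 𝓘(ℝ, ℂ) ∞ M)
    (_ : RiemannianBundle fun x : M => TangentSpace 𝓘(ℝ, ℂ) x)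
    (_ : IsContinuousRiemannianBundle ℂ fun x : M => TangentSpace 𝓘(ℝ, ℂ) x)
    (f : Diffeomorph 𝓘(ℝ, ℂ) 𝓘(ℝ, ℂ) M M 1) (Y Γ : Type) (_ : MetricSpace Y) (_ : ConnectedSpace Y)
    (_ : Group Γ) (_ : MulAction Γ Y) (_ : IsIsometricSMul Γ Y) (p : Y → M) (F : Y ≃ₜ Y),
      IsAnosov ℂ f ∧ IsQuotientCoveringMap p Γ ∧ (∀ y, p (F y) = f (p y)) ∧
      (∀ x y, ∃ w, Asym F w x ∧ Asym F.symm w y) ∧
      ∀ x y, x ≠ y → Asym F.symm x y →
        ∃ θ : ℝ, 1 < θ ∧ ∃ᶠ n : ℕ in atTop, θ ^ n ≤ dist (F^[n] x) (F^[n] y) :=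
  ⟨TCat.T, _, inferInstance, inferInstance, TCat.chT, TCat.mfT, TCat.rbT, TCat.crT, TCat.catD,
    ℂ, TCat.Lat, _, inferInstance, _, _, TCat.lat_iso, TCat.p, TCat.lift, TCat.anosov_cat,
    TCat.p_cov, TCat.lift_p, fun x y => (TCat.gps_cat x y).exists, TCat.ed_cat⟩

/-- The conclusion fails for the identity of every space with two points. -/
theorem conclusion_fails_for_identity {M : Type*} [TopologicalSpace M] {x y : M} (h : x ≠ y) :
    ¬ InfranilConj fun z : M => z :=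
  @TNot.not_conj_id M _ ⟨x, y, h⟩

end Pool.Agent.Results.MP_5c499f_an.ExpDivergence
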