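import Pool.Agent.P.MP_5c499f_an.LMain
import Pool.Agent.P.MP_5c499f_an.TCov

set_option autoImplicit false

namespace Pool.Agent.Results.MP_5c499f_an.RigidKernel

open Bundle Pool.Agent.P.MP_5c499f_an
open scoped Manifold ContDiff

theorem result {E : Type*} [NormedAddCommGroup E] [NormedSpace ℝ E] [FiniteDimensional ℝ E]
    {M : Type*} [TopologicalSpace M] [T2Space M] [CompactSpace M]
    [ChartedSpace E M] [IsManifold 𝓘(ℝ, E) ∞ M]
    [RiemannianBundle fun x : M => TangentSpace 𝓘(ℝ, E) x]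
    [IsContinuousRiemannianBundle E fun x : M => TangentSpace 𝓘(ℝ, E) x]
    (f : Diffeomorph 𝓘(ℝ, E) 𝓘(ℝ, E) M M 1) (hf : IsAnosov E f)
    {Y Γ : Type*} [MetricSpace Y] [ConnectedSpace Y] [Group Γ] [MulAction Γ Y]
    [IsIsometricSMul Γ Y] (p : Y → M) (hp : IsQuotientCoveringMap p Γ)
    (F : Y ≃ₜ Y) (hF : ∀ y, p (F y) = f (p y))
    (ex : ∀ x y, ∃ w, Asym F w x ∧ Asym F.symm w y) :
    ∃ (N : Subgroup Γ) (_ : N.Characteristic), N.FG ∧ Group.IsVirtuallyNilpotent (Γ ⧸ N) ∧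
      Stiff N :=
  gps_stiff f hf hp F hF ex

/-- The hypotheses hold together for the map `(x, y) ↦ (x + y, x)` of the two-torus, covered by the
plane. -/
theorem hypotheses_hold : ∃ (M : Type) (_ : TopologicalSpace M) (_ : T2Space M)
    (_ : CompactSpace M) (_ : ChartedSpace ℂ M) (_ : IsManifold 𝓘(ℝ, ℂ) ∞ M)
    (_ : RiemannianBundle fun x : M => TangentSpace 𝓘(ℝ, ℂ) x)
    (_ : IsContinuousRiemannianBundle ℂ fun x : M => TangentSpace 𝓘(ℝ, ℂ) x)
    (f : Diffeomorph 𝓘(ℝ, ℂ) 𝓘(ℝ, ℂ) M M 1) (Y Γ : Type) (_ : MetricSpace Y) (_ : ConnectedSpace Y)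
    (_ : Group Γ) (_ : MulAction Γ Y) (_ : IsIsometricSMul Γ Y) (p : Y → M) (F : Y ≃ₜ Y),
      IsAnosov ℂ f ∧ IsQuotientCoveringMap p Γ ∧ (∀ y, p (F y) = f (p y)) ∧
      ∀ x y, ∃ w, Asym F w x ∧ Asym F.symm w y :=
  ⟨TCat.T, _, inferInstance, inferInstance, TCat.chT, TCat.mfT, TCat.rbT, TCat.crT, TCat.catD,
    ℂ, TCat.Lat, _, inferInstance, _, _, TCat.lat_iso, TCat.p, TCat.lift, TCat.anosov_cat,
    TCat.p_cov, TCat.lift_p, fun x y => (TCat.gps_cat x y).exists⟩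

/-- The kernel is finite in groups that are linear over the complex numbers. -/
theorem finite_of_linear {Γ : Type*} [Group Γ] {d : ℕ}
    (ρ : Γ →* Matrix.GeneralLinearGroup (Fin d) ℂ) (hρ : ∀ g, ρ g = 1 → g = 1)
    (N : Subgroup Γ) (h : Stiff N) : {g | g ∈ N}.Finite :=
  TCat.finite_of_linear ρ hρ N h.1

/-- The kernel has no nonzero real character; it is trivial in locally indicable groups. -/
theorem no_real_character {N : Type*} [Group N] (h : Stiff N) (l : N → ℝ)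
    (hl : ∀ a b, l (a * b) = l a + l b) (g : N) : l g = 0 :=
  TCat.char_zero h.1 l hl g

end Pool.Agent.Results.MP_5c499f_an.RigidKernel
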