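import Pool.Agent.P.MP_5c499f_an.ZMain
import Pool.Agent.P.MP_5c499f_an.TCov
import Pool.Agent.P.MP_5c499f_an.TNot

set_option autoImplicit false

namespace Pool.Agent.Results.MP_5c499f_an.TameDeck

open Bundle Pool.Agent.P.MP_5c499f_an
open scoped Manifold ContDiff

theorem result {E : Type*} [NormedAddCommGroup E] [NormedSpace ℝ E] [FiniteDimensional ℝ E]
    {M : Type*} [TopologicalSpace M] [T2Space M] [CompactSpace M]
    [ChartedSpace E M] [IsManifold 𝓘(ℝ, E) ∞ M]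
    [RiemannianBundle fun x : M => TangentSpace 𝓘(ℝ, E) x]
    [IsContinuousRiemannianBundle E fun x : M => TangentSpace 𝓘(ℝ, E) x]
    (f : Diffeomorph 𝓘(ℝ, E) 𝓘(ℝ, E) M M 1) (hf : IsAnosov E f)
    {Y Γ : Type*} [MetricSpace Y] [ConnectedSpace Y] [Group Γ] [MulAction Γ Y]
    [IsIsometricSMul Γ Y] (p : Y → M) (hp : IsQuotientCoveringMap p Γ)
    (F : Y ≃ₜ Y) (hF : ∀ y, p (F y) = f (p y))
    (gps : ∀ x y, ∃! w, Asym F w x ∧ Asym F.symm w y)
    (H : ∀ (N : Subgroup Γ) [N.Characteristic] (Ψ : MulAut N), N.FG →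
      Group.IsVirtuallyNilpotent (Γ ⧸ N) → Stiff N → Slow Ψ → Slow Ψ⁻¹ →
      ∃ k, 0 < k ∧ ∃ a, Ψ ^ k = MulAut.conj a) : InfranilConj f :=
  gps_outer f hf hp F hF gps H

/-- The hypotheses hold together for the map `(x, y) ↦ (x + y, x)` of the two-torus, covered by the
plane. -/
theorem hypotheses_hold : ∃ (M : Type) (_ : TopologicalSpace M) (_ : T2Space M)
    (_ : CompactSpace M) (_ : ChartedSpace ℂ M) (_ : IsManifold 𝓘(ℝ, ℂ) ∞ M)
    (_ : RiemannianBundle fun x : M => TangentSpace 𝓘(ℝ, ℂ) x)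
    (_ : IsContinuousRiemannianBundle ℂ fun x : M => TangentSpace 𝓘(ℝ, ℂ) x)
    (f : Diffeomorph 𝓘(ℝ, ℂ) 𝓘(ℝ, ℂ) M M 1) (Y Γ : Type) (_ : MetricSpace Y) (_ : ConnectedSpace Y)
    (_ : Group Γ) (_ : MulAction Γ Y) (_ : IsIsometricSMul Γ Y) (p : Y → M) (F : Y ≃ₜ Y),
      IsAnosov ℂ f ∧ IsQuotientCoveringMap p Γ ∧ (∀ y, p (F y) = f (p y)) ∧
      (∀ x y, ∃! w, Asym F w x ∧ Asym F.symm w y) ∧
      ∀ (N : Subgroup Γ) [N.Characteristic] (Ψ : MulAut N), N.FG →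
        Group.IsVirtuallyNilpotent (Γ ⧸ N) → Stiff N → Slow Ψ → Slow Ψ⁻¹ →
        ∃ k, 0 < k ∧ ∃ a, Ψ ^ k = MulAut.conj a :=
  ⟨TCat.T, _, inferInstance, inferInstance, TCat.chT, TCat.mfT, TCat.rbT, TCat.crT, TCat.catD,
    ℂ, TCat.Lat, _, inferInstance, _, _, TCat.lat_iso, TCat.p, TCat.lift, TCat.anosov_cat,
    TCat.p_cov, TCat.lift_p, TCat.gps_cat, fun N _ _ _ _ h _ _ =>
      ⟨1, one_pos, 1, MulEquiv.ext fun _ => (TCat.lat_triv N h.1).elim _ _⟩⟩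

/-- The conclusion fails for the identity of every space with two points. -/
theorem conclusion_fails_for_identity {M : Type*} [TopologicalSpace M] {x y : M} (h : x ≠ y) :
    ¬ InfranilConj fun z : M => z :=
  @TNot.not_conj_id M _ ⟨x, y, h⟩

/-- The last hypothesis holds for groups that are linear over the complex numbers. -/
theorem hypothesis_of_linear {Γ : Type*} [Group Γ] {d : ℕ}
    (ρ : Γ →* Matrix.GeneralLinearGroup (Fin d) ℂ) (hρ : ∀ g, ρ g = 1 → g = 1)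
    (N : Subgroup Γ) (Ψ : MulAut N) (h : Stiff N) :
    ∃ k, 0 < k ∧ ∃ a, Ψ ^ k = MulAut.conj a :=
  have := TCat.finite_of_linear ρ hρ N h.1
  TCat.inner_of_finite Ψ

/-- The last hypothesis holds for locally indicable groups. -/
theorem hypothesis_of_indicable {Γ : Type*} [Group Γ]
    (hi : ∀ N : Subgroup Γ, N.FG → (∃ g : N, g ≠ 1) →
      ∃ l : N → ℝ, (∀ a b, l (a * b) = l a + l b) ∧ ∃ g, l g ≠ 0)
    (N : Subgroup Γ) (Ψ : MulAut N) (hN : N.FG) (h : Stiff N) :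
    ∃ k, 0 < k ∧ ∃ a, Ψ ^ k = MulAut.conj a :=
  have := TCat.finite_of_indicable N (hi N hN) h.1
  TCat.inner_of_finite Ψ

end Pool.Agent.Results.MP_5c499f_an.TameDeck
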